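import Pool.Agent.helper35.SZ.CurlDefs

namespace Pool.Agent.helper35.SZ
open scoped Classical
open Finset
noncomputable section

/-! ### M1 Koszul exactness -/
/-- Koszul operator on functions on finsets. -/
def KK {A R : Type} [CommRing R] (w : A → R) (f : Finset A → R) (Z : Finset A) : R :=
  ∑ a ∈ Z, w a * f (Z.erase a)

namespace M1

set_option linter.unusedSectionVars false

/-- Exactness of the Koszul complex on subsets of `B` in degree `q`. -/
def Ex {A R : Type} [CommRing R] (w : A → R) (B : Finset A) (q : ℕ) : Prop :=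
  ∀ f : Finset A → R, (∀ Z ⊆ B, Z.card = q + 1 → KK w f Z = 0) →
    ∃ g : Finset A → R, ∀ Z ⊆ B, Z.card = q → f Z = KK w g Z

theorem KK_insert {A R : Type} [CommRing R] (w : A → R) (f : Finset A → R) (b : A)
    (Y : Finset A) (hb : b ∉ Y) :
    KK w f (insert b Y) = w b * f Y + ∑ a ∈ Y, w a * f (insert b (Y.erase a)) := by
  unfold KK
  rw [Finset.sum_insert hb, Finset.erase_insert hb]
  congr 1
  apply Finset.sum_congr rfl
  intro a ha
  rw [Finset.erase_insert_of_ne (by rintro rfl; exact hb ha)]

theorem step {A R : Type} [CommRing R] (w : A → R) (hR : ∀ x : R, x + x = 0)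
    (B : Finset A) (b : A) (hb : b ∉ B) (q : ℕ)
    (hex : q = 0 ∨ Ex w B (q - 1)) (f g0 : Finset A → R)
    (hf : ∀ Z ⊆ insert b B, Z.card = q + 1 → KK w f Z = 0)
    (hg0 : ∀ Z ⊆ B, Z.card = q → f Z = KK w g0 Z) :
    ∃ g : Finset A → R, ∀ Z ⊆ insert b B, Z.card = q → f Z = KK w g Z := by
  rcases Nat.eq_zero_or_pos q with rfl | hq
  · refine ⟨g0, fun Z _ hZ => ?_⟩
    rw [Finset.card_eq_zero] at hZ
    subst hZ
    exact hg0 ∅ (Finset.empty_subset _) rfl
  · have hex' : Ex w B (q - 1) := hex.resolve_left (by omega)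
    obtain ⟨g1, hg1⟩ := hex' (fun Y => f (insert b Y) + w b * g0 Y) (by
      intro Z hZ hc
      have hc' : Z.card = q := by omega
      have hbZ : b ∉ Z := fun h => hb (hZ h)
      have h1 := hf (insert b Z) (Finset.insert_subset_insert b hZ) (by
        rw [Finset.card_insert_of_notMem hbZ, hc'])
      rw [KK_insert w f b Z hbZ, hg0 Z hZ hc'] at h1
      unfold KK at h1 ⊢
      rw [← h1, Finset.mul_sum, ← Finset.sum_add_distrib]
      apply Finset.sum_congr rfl
      intro a ha
      ring)
    refine ⟨fun Z => if b ∈ Z then g1 (Z.erase b) else g0 Z, ?_⟩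
    intro Z hZ hc
    by_cases hbZ : b ∈ Z
    · obtain ⟨Y, hbY, rfl⟩ : ∃ Y, b ∉ Y ∧ insert b Y = Z :=
        ⟨Z.erase b, by simp, Finset.insert_erase hbZ⟩
      have hYB : Y ⊆ B := by
        intro y hy
        have := hZ (Finset.mem_insert_of_mem hy)
        rcases Finset.mem_insert.mp this with h | h
        · exact absurd (h ▸ hy) hbY
        · exact h
      have hcY : Y.card = q - 1 := by
        rw [Finset.card_insert_of_notMem hbY] at hc
        omega
      have h2 := hg1 Y hYB hcY
      rw [KK_insert _ _ b Y hbY]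
      rw [if_neg hbY]
      have h3 : ∑ a ∈ Y, w a * (if b ∈ insert b (Y.erase a) then
          g1 ((insert b (Y.erase a)).erase b) else g0 (insert b (Y.erase a))) = KK w g1 Y := by
        unfold KK
        apply Finset.sum_congr rfl
        intro a ha
        rw [if_pos (Finset.mem_insert_self _ _), Finset.erase_insert]
        intro h
        exact hbY (Finset.mem_of_mem_erase h)
      rw [h3, ← h2]
      have := hR (w b * g0 Y)
      linear_combination (-1 : R) * this
    · have hZB : Z ⊆ B := by
        intro y hy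
        rcases Finset.mem_insert.mp (hZ hy) with h | h
        · exact absurd (h ▸ hy) hbZ
        · exact h
      rw [hg0 Z hZB hc]
      unfold KK
      apply Finset.sum_congr rfl
      intro a ha
      beta_reduce
      rw [if_neg]
      intro h
      exact hbZ (Finset.mem_of_mem_erase h)

theorem Ex_insert {A R : Type} [CommRing R] (w : A → R) (hR : ∀ x : R, x + x = 0)
    (B : Finset A) (b : A) (hb : b ∉ B) (q : ℕ) (hex : q = 0 ∨ Ex w B (q - 1))
    (h : Ex w B q) : Ex w (insert b B) q := by
  intro f hf
  obtain ⟨g0, hg0⟩ := h f (fun Z hZ hc => hf Z (hZ.trans (Finset.subset_insert b B)) hc)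
  exact step w hR B b hb q hex f g0 hf hg0

variable {A H : Type} [Fintype H]

/-- exponent of the monomial of `a`. -/
def ex (c : A → Finset H) (a : A) : H →₀ ℕ := ∑ h ∈ c a, Finsupp.single h 1

theorem prod_eq (c : A → Finset H) (a : A) :
    (∏ h ∈ c a, MvPolynomial.X h : MvPolynomial H (ZMod 2)) = MvPolynomial.monomial (ex c a) 1 := by
  unfold ex
  rw [MvPolynomial.monomial_sum_one]
  rfl

theorem ex_apply (c : A → Finset H) (a : A) (h : H) :
    ex c a h = if h ∈ c a then 1 else 0 := by
  unfold ex
  rw [Finsupp.finsetSum_apply]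
  simp [Finsupp.single_apply]

theorem div_mul (c : A → Finset H) (a b : A) (hdis : Disjoint (c a) (c b))
    (x : MvPolynomial H (ZMod 2)) :
    MvPolynomial.divMonomial (MvPolynomial.monomial (ex c b) 1 * x) (ex c a) =
      MvPolynomial.monomial (ex c b) 1 * MvPolynomial.divMonomial x (ex c a) := by
  ext m
  rw [MvPolynomial.coeff_divMonomial, MvPolynomial.coeff_monomial_mul',
    MvPolynomial.coeff_monomial_mul']
  have hle : ex c b ≤ ex c a + m ↔ ex c b ≤ m := by
    constructor
    · intro h i
      have := h i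
      rw [Finsupp.add_apply, ex_apply, ex_apply] at this
      rw [ex_apply]
      by_cases hi : i ∈ c b
      · have : i ∉ c a := fun h' => (Finset.disjoint_left.mp hdis h') hi
        simp_all
      · simp [hi]
    · intro h
      exact h.trans (by simp)
  by_cases h : ex c b ≤ m
  · rw [if_pos h, if_pos (hle.mpr h), MvPolynomial.coeff_divMonomial]
    congr 2
    exact add_tsub_assoc_of_le h _
  · rw [if_neg h, if_neg (fun h' => h (hle.mp h'))]

theorem iter (s : H →₀ ℕ) (n : ℕ) (x : MvPolynomial H (ZMod 2)) :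
    MvPolynomial.divMonomial (MvPolynomial.divMonomial x (n • s)) s =
      MvPolynomial.divMonomial x ((n + 1) • s) := by
  rw [← MvPolynomial.divMonomial_add, add_smul, one_smul]

theorem div_large (s : H →₀ ℕ) (hs : s ≠ 0) (x : MvPolynomial H (ZMod 2)) (n : ℕ)
    (hn : x.totalDegree < n) : MvPolynomial.divMonomial x (n • s) = 0 := by
  ext m
  rw [MvPolynomial.coeff_divMonomial, MvPolynomial.coeff_zero]
  apply MvPolynomial.coeff_eq_zero_of_totalDegree_lt
  refine lt_of_lt_of_le hn ?_
  obtain ⟨h, hh⟩ := Finsupp.ne_iff.mp hs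
  have hh' : 1 ≤ s h := Nat.one_le_iff_ne_zero.mpr hh
  have h1 : n ≤ (n • s + m) h := by
    rw [Finsupp.add_apply, Finsupp.smul_apply, smul_eq_mul]
    nlinarith
  have h2 : h ∈ (n • s + m).support := by
    rw [Finsupp.mem_support_iff]
    omega
  exact h1.trans (Finset.single_le_sum (f := fun i => (n • s + m) i) (fun i _ => Nat.zero_le _) h2)

theorem divsum (s : H →₀ ℕ) (T : Finset A) (F : A → MvPolynomial H (ZMod 2)) :
    MvPolynomial.divMonomial (∑ a ∈ T, F a) s = ∑ a ∈ T, MvPolynomial.divMonomial (F a) s := by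
  induction T using Finset.induction_on with
  | empty => simp
  | insert a T ha ih => rw [Finset.sum_insert ha, Finset.sum_insert ha,
      MvPolynomial.add_divMonomial, ih]

theorem char2 (x : MvPolynomial H (ZMod 2)) : x + x = 0 := by
  ext m
  rw [MvPolynomial.coeff_add, MvPolynomial.coeff_zero]
  exact CharTwo.add_self_eq_zero _

theorem sub_eq (x y : MvPolynomial H (ZMod 2)) : x - y = x + y := by
  have := char2 y
  linear_combination (-1 : MvPolynomial H (ZMod 2)) * this

/-- The trick: a cycle can be divided. -/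
theorem trick (c : A → Finset H) (B : Finset A) (a : A)
    (hdis : ∀ b ∈ B, Disjoint (c a) (c b)) (hne : (c a).Nonempty)
    (f0 f1 : Finset A → MvPolynomial H (ZMod 2)) (q : ℕ)
    (h : ∀ Z ⊆ B, Z.card = q → (∏ h ∈ c a, MvPolynomial.X h - 1) * f0 Z +
      KK (fun a => ∏ h ∈ c a, MvPolynomial.X h - 1) f1 Z = 0) :
    ∃ g : Finset A → MvPolynomial H (ZMod 2), ∀ Z ⊆ B, Z.card = q →
      f0 Z = KK (fun a => ∏ h ∈ c a, MvPolynomial.X h - 1) g Z := by
  set s := ex c a with hs
  have hs0 : s ≠ 0 := by
    obtain ⟨i, hi⟩ := hne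
    intro h
    have := DFunLike.congr_fun h i
    rw [hs, ex_apply, if_pos hi] at this
    simp at this
  -- D commutes with KK on subsets of B
  have hD : ∀ (F : Finset A → MvPolynomial H (ZMod 2)) (Z : Finset A), Z ⊆ B →
      MvPolynomial.divMonomial (KK (fun a => ∏ h ∈ c a, MvPolynomial.X h - 1) F Z) s =
      KK (fun a => ∏ h ∈ c a, MvPolynomial.X h - 1)
        (fun Y => MvPolynomial.divMonomial (F Y) s) Z := by
    intro F Z hZ
    unfold KK
    rw [divsum]
    apply Finset.sum_congr rfl
    intro b hb
    beta_reduce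
    rw [prod_eq, sub_eq, add_mul, add_mul, MvPolynomial.add_divMonomial, one_mul, one_mul,
      div_mul c a b (hdis b (hZ hb))]
  have hstep : ∀ Z ⊆ B, Z.card = q → f0 Z = MvPolynomial.divMonomial (f0 Z) s +
      KK (fun a => ∏ h ∈ c a, MvPolynomial.X h - 1)
        (fun Y => MvPolynomial.divMonomial (f1 Y) s) Z := by
    intro Z hZ hc
    rw [← hD f1 Z hZ, ← MvPolynomial.add_divMonomial]
    have h1 := h Z hZ hc
    rw [prod_eq] at h1
    have h2 : MvPolynomial.monomial (ex c a) 1 * f0 Z = f0 Z +
        KK (fun a => ∏ h ∈ c a, MvPolynomial.X h - 1) f1 Z := by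
      have h3 := char2 (KK (fun a => ∏ h ∈ c a, MvPolynomial.X h - 1 : A → MvPolynomial H (ZMod 2)) f1 Z)
      linear_combination h1 - h3
    rw [← h2, MvPolynomial.divMonomial_monomial_mul]
  have hiter : ∀ n : ℕ, ∀ Z ⊆ B, Z.card = q → f0 Z = MvPolynomial.divMonomial (f0 Z) (n • s) +
      KK (fun a => ∏ h ∈ c a, MvPolynomial.X h - 1)
        (fun Y => ∑ i ∈ Finset.range n, MvPolynomial.divMonomial (f1 Y) ((i + 1) • s)) Z := by
    intro n
    induction n with
    | zero =>
      intro Z hZ hc
      simp only [Finset.range_zero, Finset.sum_empty, zero_smul, KK, mul_zero,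
        Finset.sum_const_zero, add_zero]
      exact (MvPolynomial.divMonomial_zero _).symm
    | succ n ih =>
      intro Z hZ hc
      have h1 := ih Z hZ hc
      have h2 : MvPolynomial.divMonomial (f0 Z) (n • s) =
          MvPolynomial.divMonomial (f0 Z) ((n + 1) • s) +
          KK (fun a => ∏ h ∈ c a, MvPolynomial.X h - 1)
            (fun Y => MvPolynomial.divMonomial (f1 Y) ((n + 1) • s)) Z := by
        have h3 := congrArg (fun x => MvPolynomial.divMonomial x (n • s)) (hstep Z hZ hc)
        beta_reduce at h3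
        rw [MvPolynomial.add_divMonomial] at h3
        rw [h3]
        rw [← MvPolynomial.divMonomial_add]
        have e1 : s + n • s = (n + 1) • s := by rw [add_smul, one_smul, add_comm]
        rw [e1]
        congr 1
        -- iterate hD
        have hDn : ∀ (k : ℕ) (F : Finset A → MvPolynomial H (ZMod 2)),
            MvPolynomial.divMonomial (KK (fun a => ∏ h ∈ c a, MvPolynomial.X h - 1) F Z) (k • s) =
            KK (fun a => ∏ h ∈ c a, MvPolynomial.X h - 1)
              (fun Y => MvPolynomial.divMonomial (F Y) (k • s)) Z := by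
          intro k
          induction k with
          | zero =>
            intro F
            rw [zero_smul]
            simp only [MvPolynomial.divMonomial_zero]
          | succ k ihk =>
            intro F
            rw [← iter, ihk, hD _ Z hZ]
            simp only [iter]
        rw [hDn]
        simp only [← MvPolynomial.divMonomial_add, e1]
      refine h1.trans ?_
      rw [h2]
      unfold KK
      simp only [Finset.sum_range_succ, mul_add, Finset.sum_add_distrib]
      ring
  -- choose n large
  obtain ⟨n, hn⟩ : ∃ n : ℕ, ∀ Z ∈ B.powerset, (f0 Z).totalDegree < n := by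
    refine ⟨B.powerset.sup (fun Z => (f0 Z).totalDegree) + 1, fun Z hZ => ?_⟩
    have := Finset.le_sup (f := fun Z => (f0 Z).totalDegree) hZ
    beta_reduce at this
    omega
  refine ⟨fun Y => ∑ i ∈ Finset.range n, MvPolynomial.divMonomial (f1 Y) ((i + 1) • s),
    fun Z hZ hc => ?_⟩
  have h1 := hiter n Z hZ hc
  rw [div_large s hs0 (f0 Z) n (hn Z (Finset.mem_powerset.mpr hZ)), zero_add] at h1
  exact h1

theorem Ex_good (c : A → Finset H) (B1 : Finset A)
    (hdis : ∀ a ∈ B1, ∀ b ∈ B1, a ≠ b → Disjoint (c a) (c b)) (hne : ∀ a ∈ B1, (c a).Nonempty) :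
    ∀ B' : Finset A, B' ⊆ B1 → ∀ q, q < B'.card →
      Ex (fun a => ∏ h ∈ c a, MvPolynomial.X h - 1 : A → MvPolynomial H (ZMod 2)) B' q := by
  intro B'
  induction B' using Finset.induction_on with
  | empty => intro _ q hq; simp at hq
  | insert a B' ha ih =>
    intro hB' q hq
    have hsub : B' ⊆ B1 := (Finset.subset_insert a B').trans hB'
    rw [Finset.card_insert_of_notMem ha] at hq
    have haB : a ∈ B1 := hB' (Finset.mem_insert_self _ _)
    intro f hf
    obtain ⟨g0, hg0⟩ := trick c B' a (fun b hb => hdis a haB b (hsub hb) (by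
        rintro rfl; exact ha hb)) (hne a haB) f (fun Y => f (insert a Y)) q (by
      intro Z hZ hc
      have haZ : a ∉ Z := fun h => ha (hZ h)
      have := hf (insert a Z) (Finset.insert_subset_insert a hZ) (by
        rw [Finset.card_insert_of_notMem haZ, hc])
      rw [KK_insert _ _ a Z haZ] at this
      exact this)
    refine step _ char2 B' a ha q ?_ f g0 hf hg0
    rcases Nat.eq_zero_or_pos q with rfl | hq0
    · exact Or.inl rfl
    · exact Or.inr (ih hsub (q - 1) (by omega))

end M1

theorem M1_exact {A H : Type} [Fintype H] (c : A → Finset H) (B B1 : Finset A) (hB : B1 ⊆ B)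
    (hdis : ∀ a ∈ B1, ∀ b ∈ B1, a ≠ b → Disjoint (c a) (c b)) (hne : ∀ a ∈ B1, (c a).Nonempty)
    (q : ℕ) (hq : q < B1.card) (f : Finset A → MvPolynomial H (ZMod 2))
    (hf : ∀ Z ⊆ B, Z.card = q + 1 →
      KK (fun a => ∏ h ∈ c a, MvPolynomial.X h - 1) f Z = 0) :
    ∃ g : Finset A → MvPolynomial H (ZMod 2), ∀ Z ⊆ B, Z.card = q →
      f Z = KK (fun a => ∏ h ∈ c a, MvPolynomial.X h - 1) g Z := by
  have key : ∀ T : Finset A, Disjoint B1 T → ∀ q, q < B1.card →
      M1.Ex (fun a => ∏ h ∈ c a, MvPolynomial.X h - 1 : A → MvPolynomial H (ZMod 2))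
        (B1 ∪ T) q := by
    intro T
    induction T using Finset.induction_on with
    | empty =>
      intro _ q hq
      rw [Finset.union_empty]
      exact M1.Ex_good c B1 hdis hne B1 (Finset.Subset.refl _) q hq
    | insert b T hb ih =>
      intro hd q hq
      rw [Finset.disjoint_insert_right] at hd
      rw [Finset.union_insert]
      apply M1.Ex_insert _ M1.char2
      · intro h
        rcases Finset.mem_union.mp h with h | h
        · exact hd.1 h
        · exact hb h
      · rcases Nat.eq_zero_or_pos q with rfl | hq0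
        · exact Or.inl rfl
        · exact Or.inr (ih hd.2 (q - 1) (by omega))
      · exact ih hd.2 q hq
  have := key (B \ B1) Finset.disjoint_sdiff q hq
  rw [Finset.union_sdiff_of_subset hB] at this
  exact this f hf

end
end Pool.Agent.helper35.SZ
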